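import Mathlib
import Pool.Agent.H983R4.GL.F3
import Pool.Agent.H855R2.SF.Dir
import Pool.Agent.R509.GL.Cat

/-!
# Lindelöf bounds for L-functions of `GL(m)` at almost all translates, dilations and powers

Let `π` run through a family of cuspidal representations of `GL(m)`, normalised as in the problem, and let
`X = (1 + |T|) C_π`.  We say that the exponent `κ` is admissible on a set `S` of pairs `(π, T)` if
`|L(1/2 + iT, π)| = O(X^(κ + ε))` for `(π, T)` in `S` and all `ε > 0`; the Grand Lindelöf Hypothesis for the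
family is the case `κ = 0` and `S` the set of all pairs.

1. **Uniform boundedness.** Let `S` be any set of pairs, `U` open, `K` a compact subset of `U`.  If for almost
every `β` in `U` the exponent `κ` is admissible on `S + β`, with constants which may depend on `β` in any way,
then it is admissible on `S + K`: the constants are uniform for `β` in `K`.  In particular, if the sets `Λ_π`
are relatively dense (with the same bound for the gaps) then `κ` is admissible for the family if and only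
if, for almost every `β`, it is admissible at the points `(π, l + β)`, `l` in `Λ_π`.

2. **Density.** The set of all `β` for which `κ` is admissible on `S + β` contains each of its points of
(lower outer) density one; for instance (`S` the set of the pairs `(π, 0)`) the bound holds at the central point
if, for each `η > 0`, there is a window `|β| ≤ h` which, outside a set of measure `η h`, consists of points
`β` such that `L(1/2 + iβ, π) = O(C_π^(κ + ε))`.

3. **Dilations, uniformly.** Let every `Λ_π` contain at least `c x` points of `[x/2, x]` at mutual distances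
`≥ 1`, for all `x ≥ M`.  If for almost every real `α` the exponent `κ` is admissible at the points
`(π, α l + β_π)`, `l` in `Λ_π`, then it is admissible for the family.

4. **Dilations, zero-one law.** Let `Λ` contain at least `c s x` points of `[x, (1 + s) x]` at mutual
distances `≥ 1`, for all `s > 0` and `x ≥ x₀(s)`.  For all `α > 0` outside one set of measure zero, for each
`π` and each `κ ≥ 0`: `κ` is admissible for `L(1/2 + it, π)`, `t ≥ 0`, if and only if it is at the points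
`t = α l + β`, `l` in `Λ`.

5. **Powers.** Let `a_n → ∞`, `a_(n+1)/a_n → 1`.  For all `α > 1` outside one set of the first category,
for each `π` and each `κ ≥ 0`: `κ` is admissible for `t ≥ 0` if and only if it is at the points
`t = α^(a_n)`.

The theorem uses only classical facts: the functional equation, `Re μ_j < 1/2`, finite order, and Molteni's
bound `L(σ + it, π) = O(C_π^ε)` in `σ ≥ 1 + ε`.  For primitive Dirichlet characters of modulus `q > 1`
(`m = 1`) all of them are proved and the results hold with `X = q (1 + |T|)`.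

Proof.  Large values persist at all scales (`PersistentLargeValues`): if `|L(1/2 + iT)| ≥ X^μ` then
`|L| > X^κ` on a proportion `δ` of `[T - h, T + h]`.  If `κ` is not admissible on `S + K` one obtains a sequence
of sets of `β`, of measure `≥ δ h`, at distance at most `h` from `K`, and almost all points of their upper limit
are bad.  For dilations, the set of the `α` that bring one of about `T` points of `Λ` to a window of length
`2h` near `T` is a union of disjoint sets of measure about `δ h / T`.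
-/

set_option autoImplicit false

open Filter Topology MeasureTheory Real Set

namespace Pool.Agent.Results.MP_52e316_nt.AlmostAllTranslates

/-- The data of a standard L-function of `GL(m)`: the conductor `N`, the archimedean parameters `mu j` (the
factor at infinity is `∏ j, Γ_ℝ (s - mu j)`) and the L-function `f` (continued to the complex plane). -/
structure Datum (m : ℕ) where
  N : ℕ
  mu : Fin m → ℂ
  f : ℂ → ℂ

/-- The analytic conductor `C = N ∏ j, (1 + |mu j|)`. -/
noncomputable def Datum.C {m : ℕ} (D : Datum m) : ℝ := D.N * ∏ j, (1 + ‖D.mu j‖)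

/-- The classical properties: `N ≥ 1`, `Re (mu j) < 1/2`, `f` is entire, of finite order in the strip
`-1/4 ≤ Re s ≤ 5/4`, and satisfies the functional equation `Λ(s) = root N^(1/2-s) conj (Λ(1 - conj s))`,
`Λ(s) = f(s) ∏ j, Γ_ℝ (s - mu j)`, with `|root| = 1` (divided by the gamma factors of both sides). -/
structure Datum.Ok {m : ℕ} (D : Datum m) : Prop where
  N_pos : 0 < D.N
  mu_re : ∀ j, (D.mu j).re < 1 / 2
  entire : Differentiable ℂ D.f
  order : ∃ A : ℝ, ∀ s : ℂ, -1 / 4 ≤ s.re → s.re ≤ 5 / 4 →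
    ‖D.f s‖ ≤ Real.exp (A * (1 + |s.im|) ^ A)
  fe : ∃ root : ℂ, ‖root‖ = 1 ∧ ∀ s : ℂ,
    D.f s * ∏ j, (Complex.Gammaℝ (1 - s - (starRingEnd ℂ) (D.mu j)))⁻¹ =
      root * (D.N : ℂ) ^ (1 / 2 - s) * (starRingEnd ℂ) (D.f (1 - (starRingEnd ℂ) s)) *
        ∏ j, (Complex.Gammaℝ (s - D.mu j))⁻¹

/-- Molteni's bound to the right of the critical strip, uniform in the family. -/
def Molteni {ι : Type} {m : ℕ} (D : ι → Datum m) : Prop := ∀ ε : ℝ, 0 < ε → ∃ B : ℝ, ∀ (i : ι) (s : ℂ),
  1 + ε ≤ s.re → ‖(D i).f s‖ ≤ B * (D i).C ^ ε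

variable {ι : Type}

/-- `|L i (1/2 + iT)| = O(X^(κ + ε))` at all points `(i, T)` of `S`. -/
def Exponent (L : ι → ℂ → ℂ) (X : ι → ℝ → ℝ) (S : Set (ι × ℝ)) (κ : ℝ) : Prop :=
  ∀ ε : ℝ, 0 < ε → ∃ B : ℝ, ∀ (i : ι) (T : ℝ), (i, T) ∈ S →
    ‖L i (1 / 2 + T * Complex.I)‖ ≤ B * X i T ^ (κ + ε)

/-- The points `(i, T + β)`, `(i, T)` in `S`, `β` in `K`. -/
def Translates (S : Set (ι × ℝ)) (K : Set ℝ) : Set (ι × ℝ) := {q | ∃ β ∈ K, (q.1, q.2 - β) ∈ S}

/-- The points `(i, α l + β i)`, `l` in `Λ i`. -/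
def Dilates (Λ : ι → Set ℝ) (β : ι → ℝ) (α : ℝ) : Set (ι × ℝ) :=
  {q | ∃ l ∈ Λ q.1, q.2 = α * l + β q.1}

/-- The points `(i, t)`, `t ≥ 0`, `t` in `S`. -/
def Ray (i : ι) (S : Set ℝ) : Set (ι × ℝ) := {q | q.1 = i ∧ 0 ≤ q.2 ∧ q.2 ∈ S}

/-- `Λ` contains at least `c x` points of `[x/2, x]` at mutual distances at least `1`, for all `x ≥ M`. -/
def Dyadic (c M : ℝ) (Λ : Set ℝ) : Prop := ∀ x : ℝ, M ≤ x → ∃ S : Finset ℝ,
  (∀ l ∈ S, l ∈ Λ ∧ x / 2 ≤ l ∧ l ≤ x) ∧ (∀ l ∈ S, ∀ l' ∈ S, l ≠ l' → 1 ≤ |l - l'|) ∧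
    c * x ≤ (S.card : ℝ)

/-- `Λ` contains at least `c s x` points of `[x, (1 + s) x]` at mutual distances at least `1`, for all
`s > 0` and all `x ≥ x₀(s)`. -/
def Thick (c : ℝ) (Λ : Set ℝ) : Prop := ∀ s : ℝ, 0 < s → ∃ x₀ : ℝ, ∀ x : ℝ, x₀ ≤ x →
  ∃ S : Finset ℝ, (∀ l ∈ S, l ∈ Λ ∧ x ≤ l ∧ l ≤ (1 + s) * x) ∧
    (∀ l ∈ S, ∀ l' ∈ S, l ≠ l' → 1 ≤ |l - l'|) ∧ c * s * x ≤ (S.card : ℝ)

/-- 1. and 2. -/
def AlmostAllTranslations (L : ι → ℂ → ℂ) (X : ι → ℝ → ℝ) : Prop := ∀ κ : ℝ, 0 ≤ κ →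
  (∀ (S : Set (ι × ℝ)) (U K : Set ℝ), IsOpen U → IsCompact K → K ⊆ U →
    (∀ᵐ β : ℝ, β ∈ U → Exponent L X (Translates S {β}) κ) → Exponent L X (Translates S K) κ) ∧
  (∀ (Λ : ι → Set ℝ) (g : ℝ), (∀ (i : ι) (x : ℝ), ∃ l ∈ Λ i, |x - l| ≤ g) →
    (Exponent L X univ κ ↔ ∀ᵐ β : ℝ, Exponent L X {q | ∃ l ∈ Λ q.1, q.2 = l + β} κ)) ∧
  (∀ (S : Set (ι × ℝ)) (β₀ : ℝ), (∀ η : ℝ, 0 < η → ∃ h : ℝ, 0 < h ∧ h ≤ 1 ∧
    volume {β : ℝ | |β - β₀| ≤ h ∧ ¬ Exponent L X (Translates S {β}) κ} ≤ ENNReal.ofReal (η * h)) →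
    Exponent L X (Translates S {β₀}) κ)

/-- 3. and 4. -/
def AlmostAllDilations (L : ι → ℂ → ℂ) (X : ι → ℝ → ℝ) : Prop :=
  (∀ (Λ : ι → Set ℝ) (β : ι → ℝ) (κ c M : ℝ), 0 ≤ κ → 0 < c → 2 ≤ M → (∀ i, Dyadic c M (Λ i)) →
    (Exponent L X univ κ ↔ ∀ᵐ α : ℝ, Exponent L X (Dilates Λ β α) κ)) ∧
  (Countable ι → ∀ (Λ : Set ℝ) (β c : ℝ), 0 < c → Thick c Λ →
    ∀ᵐ α : ℝ, 0 < α → ∀ (i : ι) (κ : ℝ), 0 ≤ κ →
      (Exponent L X (Ray i {t | ∃ l ∈ Λ, t = α * l + β}) κ ↔ Exponent L X (Ray i univ) κ))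

/-- 5. -/
def GenericPowers (L : ι → ℂ → ℂ) (X : ι → ℝ → ℝ) : Prop :=
  Countable ι → ∀ a : ℕ → ℝ, (∀ n, 0 < a n) → Tendsto a atTop atTop →
    Tendsto (fun n => a (n + 1) / a n) atTop (𝓝 1) →
    IsMeagre {α : ℝ | 1 < α ∧ ¬ ∀ (i : ι) (κ : ℝ), 0 ≤ κ →
      (Exponent L X (Ray i {t | ∃ n : ℕ, t = α ^ (a n)}) κ ↔ Exponent L X (Ray i univ) κ)}

/-- The conclusion for a family. -/
def Conclusion (L : ι → ℂ → ℂ) (X : ι → ℝ → ℝ) : Prop :=
  AlmostAllTranslations L X ∧ AlmostAllDilations L X ∧ GenericPowers L X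

section proofs

open Pool.Agent.H983R4.GL H855R2.SF Pool.Agent.R509.GL

theorem famC_of {L : ι → ℂ → ℂ} {X : ι → ℝ → ℝ} (H : Fam L X) (hX : ∀ i, Continuous (X i)) :
    FamC (fun i t => ‖L i (1 / 2 + t * Complex.I)‖) X where
  one := H.one
  cont := by
    intro i
    obtain ⟨p, C, m, K, hp, hC, hm, hK, hld⟩ := H.ld
    exact continuous_norm.comp ((hld i 0).hd.continuous.comp (by fun_prop))
  contX := hX
  persist := fun κ μ hκ hμ => H.persist hκ hμ
  crude := by
    obtain ⟨p, C, m, K, hp, hC, hm, hK, hld⟩ := H.ld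
    refine ⟨Real.exp C, p, (Real.exp_pos C).le, hp.le, fun i t => ?_⟩
    have h1 := (hld i t).g (1 / 2 + t * Complex.I) (by simp)
    have e : ((1 / 2 : ℂ) + t * Complex.I).im = t := by simp
    rw [e, sub_self, abs_zero, add_zero, Real.log_one, mul_zero, add_zero] at h1
    have hx := H.one i t
    set w : ℝ := ‖L i (1 / 2 + t * Complex.I)‖ with hw
    rcases lt_or_ge w 1 with hw1 | hw1
    · have h2 : 1 ≤ Real.exp C := Real.one_le_exp hC
      have h3 : 1 ≤ X i t ^ p := Real.one_le_rpow hx hp.le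
      nlinarith
    · have h2 : Real.log w ≤ C + p * Real.log (X i t) := le_trans (le_max_right 0 (Real.log w)) h1
      rw [← Real.exp_log (show 0 < w by linarith)]
      have h3 : X i t ^ p = Real.exp (p * Real.log (X i t)) := by
        rw [Real.rpow_def_of_pos (by linarith), mul_comm]
      rw [h3, ← Real.exp_add]
      exact Real.exp_le_exp.2 h2
  shift := H.shift

theorem exponent_mono {L : ι → ℂ → ℂ} {X : ι → ℝ → ℝ} {S S' : Set (ι × ℝ)} (h : S ⊆ S') {κ : ℝ}
    (hE : Exponent L X S' κ) : Exponent L X S κ := by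
  intro ε hε
  obtain ⟨B, hB⟩ := hE ε hε
  exact ⟨B, fun i T hT => hB i T (h hT)⟩

theorem conclusion_of {L : ι → ℂ → ℂ} {X : ι → ℝ → ℝ} (H : Fam L X) (hX : ∀ i, Continuous (X i)) :
    Conclusion L X := by
  have HC := famC_of H hX
  refine ⟨fun κ hκ => ⟨fun S U K hU hK hKU h => unif HC S hκ hU hK hKU h, fun Λ g hΛ => ?_,
    fun S β₀ h => dens_closed HC S hκ h⟩, ⟨fun Λ β κ c M hκ hc hM hΛ => ?_, ?_⟩, ?_⟩
  · refine ⟨fun h => Eventually.of_forall fun β => exponent_mono (subset_univ _) h, fun h => ?_⟩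
    have h1 := unif HC {q : ι × ℝ | q.2 ∈ Λ q.1} hκ isOpen_univ (isCompact_Icc (a := -g) (b := g))
      (subset_univ _) (by
        filter_upwards [h] with β hβ _
        refine exponent_mono ?_ hβ
        rintro q ⟨β', hβ', hq⟩
        rw [mem_singleton_iff] at hβ'
        rw [hβ'] at hq
        exact ⟨q.2 - β, hq, by ring⟩)
    refine exponent_mono ?_ h1
    intro q _
    obtain ⟨l, hl, hg⟩ := hΛ q.1 q.2
    refine ⟨q.2 - l, ⟨(abs_le.1 hg).1, (abs_le.1 hg).2⟩, ?_⟩
    change q.2 - (q.2 - l) ∈ Λ q.1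
    rwa [sub_sub_cancel]
  · exact ⟨fun h => Eventually.of_forall fun α => exponent_mono (subset_univ _) h,
      fun h => dil_unif HC hκ hc hM Λ hΛ β h⟩
  · intro _ Λ β c hc hΛ
    exact dil_each HC hc hΛ β
  · intro _ a ha hinf har
    have h := cat_each HC ha hinf har
    change _ ∈ residual ℝ
    filter_upwards [h] with α hα hα2
    exact hα2.2 (hα hα2.1)

theorem Datum.C_one {m : ℕ} {D : Datum m} (h : 0 < D.N) : 1 ≤ D.C := by
  have := cond_one_le h D.mu 0
  unfold Datum.C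
  simpa using this

theorem afam_gl {m : ℕ} (hm : 1 ≤ m) {D : ι → Datum m} (hD : ∀ i, (D i).Ok) (hM : Molteni D) :
    AFam (m : ℝ) (fun i => (D i).f) (fun i t => ((1 + |t|) * (D i).C) ^ (m : ℝ)) where
  m0 := by positivity
  Q1 := by
    intro i t
    refine Real.one_le_rpow ?_ (by positivity)
    have h1 := (D i).C_one (hD i).N_pos
    nlinarith [abs_nonneg t]
  Qs := by
    intro i t u
    have h1 := (D i).C_one (hD i).N_pos
    have h2 : 1 + |t + u| ≤ (1 + |u|) * (1 + |t|) := by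
      have := abs_add_le t u
      nlinarith [abs_nonneg t, abs_nonneg u, mul_nonneg (abs_nonneg t) (abs_nonneg u)]
    rw [← Real.mul_rpow (by positivity) (by positivity)]
    refine Real.rpow_le_rpow (by positivity) ?_ (by positivity)
    calc (1 + |t + u|) * (D i).C ≤ ((1 + |u|) * (1 + |t|)) * (D i).C :=
          mul_le_mul_of_nonneg_right h2 (by linarith)
      _ = _ := by ring
  diff := fun i => (hD i).entire
  order := fun i => (hD i).order
  right := by
    intro δ hδ
    obtain ⟨B, hB⟩ := hM δ hδ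
    refine ⟨|B|, fun i s hs => ?_⟩
    have h1 := (D i).C_one (hD i).N_pos
    refine (hB i s hs).trans ?_
    have h2 : (D i).C ≤ (1 + |s.im|) * (D i).C := by
      nlinarith [abs_nonneg s.im]
    have h3 : (D i).C ≤ ((1 + |s.im|) * (D i).C) ^ (m : ℝ) := by
      refine h2.trans ?_
      conv_lhs => rw [← Real.rpow_one ((1 + |s.im|) * (D i).C)]
      exact Real.rpow_le_rpow_of_exponent_le (by linarith) (by exact_mod_cast hm)
    calc B * (D i).C ^ δ ≤ |B| * (D i).C ^ δ :=
          mul_le_mul_of_nonneg_right (le_abs_self B) (Real.rpow_nonneg (by linarith) _)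
      _ ≤ _ := mul_le_mul_of_nonneg_left (Real.rpow_le_rpow (by linarith) h3 hδ.le) (abs_nonneg B)
  refl := by
    refine ⟨16 ^ m, by positivity, fun i x t hx0 hx1 => ?_⟩
    obtain ⟨root, hroot, hfe⟩ := (hD i).fe
    have h1 := (D i).C_one (hD i).N_pos
    refine (refl_of_fe (hD i).N_pos (D i).mu (hD i).mu_re hroot hfe (t := t) hx0 hx1).trans ?_
    refine mul_le_mul_of_nonneg_right ?_ (norm_nonneg _)
    refine mul_le_mul_of_nonneg_left ?_ (by positivity)
    refine Real.rpow_le_rpow (by positivity) ?_ hx0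
    have h2 := cond_shift (D i).N (D i).mu 0 t
    have e1 : (D i).N * ∏ j, (1 + ‖(D i).mu j - ((0 : ℝ) : ℂ) * Complex.I‖) = (D i).C := by
      unfold Datum.C; simp
    rw [e1, zero_add] at h2
    refine h2.trans ?_
    rw [Real.mul_rpow (by positivity) (by linarith)]
    refine mul_le_mul_of_nonneg_left ?_ (by positivity)
    conv_lhs => rw [← Real.rpow_one (D i).C]
    exact Real.rpow_le_rpow_of_exponent_le h1 (by exact_mod_cast hm)

theorem fam_dir : Fam (dirL (S := fun _ _ => True)) (dirQ (S := fun _ _ => True)) :=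
  Fam.of_afam (p := 1) (dir_afam _) one_pos (dir_afam _).Q1 fun i t => by rw [Real.rpow_one]

theorem Fam.comp {ι' : Type} {L : ι → ℂ → ℂ} {X : ι → ℝ → ℝ} (H : Fam L X) (g : ι' → ι) :
    Fam (fun i => L (g i)) (fun i => X (g i)) where
  one := fun i t => H.one (g i) t
  ld := by
    obtain ⟨p, C, m, K, hp, hC, hm, hK, h⟩ := H.ld
    exact ⟨p, C, m, K, hp, hC, hm, hK, fun i T => h (g i) T⟩
  shift := by
    obtain ⟨m, hm, h⟩ := H.shift
    exact ⟨m, hm, fun i t u => h (g i) t u⟩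

end proofs

theorem result :
    (∀ (ι : Type) (m : ℕ) (D : ι → Datum m), 1 ≤ m → (∀ i, (D i).Ok) → Molteni D →
      Conclusion (fun i => (D i).f) (fun i T => (1 + |T|) * (D i).C)) ∧
    (∀ (ι : Type) (q : ι → ℕ) [∀ i, NeZero (q i)] (χ : (i : ι) → DirichletCharacter ℂ (q i)),
      (∀ i, 1 < q i ∧ (χ i).IsPrimitive) →
      Conclusion (fun i => DirichletCharacter.LFunction (χ i)) (fun i T => (q i : ℝ) * (1 + |T|))) := by
  refine ⟨fun ι m D hm hD hM => conclusion_of ?_ fun i => by fun_prop,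
    fun ι q _ χ h => conclusion_of ?_ fun i => by fun_prop⟩
  · refine Pool.Agent.H983R4.GL.Fam.of_afam (p := m) (afam_gl hm hD hM) (by exact_mod_cast hm) ?_
      fun _ _ => rfl
    intro i t
    have h1 := (D i).C_one (hD i).N_pos
    nlinarith [abs_nonneg t]
  · exact Fam.comp fam_dir (fun i => (⟨q i, (h i).1, χ i, (h i).2, trivial⟩ :
      H855R2.SF.DC (fun _ _ => True)))

end Pool.Agent.Results.MP_52e316_nt.AlmostAllTranslates
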