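import Mathlib
import Pool.Agent.R402.W7
import Pool.Agent.Results.MP_cf4097_nt.WeakSubconvexity

/-!
# The second moment of `GL(m)` L-functions in short windows, with a saving over convexity

For every L-function of degree `m` with the analytic properties of the standard L-function of a
unitary cuspidal automorphic representation of `GL_m` over the rationals (Euler product with
Satake parameters of size at most `p^θ`, `θ < 1/2`, functional equation, entire of finite order,
Rankin-Selberg upper bound), for every real `t` with `Q = Q(1/2 + i t)` large and every `T` with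
`2 ≤ T ≤ exp ((log Q)^{1/4})`,

`∫_t^{t+T} |L(1/2 + i τ)|² Q(1/2 + i τ)^{-1/2} dτ ≤ B ((log T + log log Q) log log Q)² / log Q`,

with `B` depending on `m`, `θ` and the Rankin-Selberg constant `A` only. The convexity bound gives
`T` times a power of `log Q`: on the average over a window of length `T` the convexity bound for
`|L|²` is improved by `T^{1 - o(1)} log Q`.
-/

set_option autoImplicit false

open MeasureTheory
open scoped ArithmeticFunction.vonMangoldt

namespace Pool.Agent.Results.MP_52e316_nt.SecondMomentWindows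

/-- The data of a standard L-function of degree `m` over the rationals: the arithmetic conductor
`q`, the archimedean parameters `μ j` (the gamma factor is `∏ j, Γ_ℝ(s + μ j)`), the Satake
parameters `α p j` at the primes `p` (some of them zero at ramified primes; the values `α n j` at
non-primes `n` play no role), the root number `w` and the L-function `L`. -/
structure StdL (m : ℕ) where
  /-- the arithmetic conductor -/
  q : ℕ
  /-- the archimedean parameters -/
  μ : Fin m → ℂ
  /-- the Satake parameters -/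
  α : ℕ → Fin m → ℂ
  /-- the root number -/
  w : ℂ
  /-- the L-function -/
  L : ℂ → ℂ

/-- The analytic conductor `Q(s) = q ∏ j, (1 + |s + μ j|)`. -/
noncomputable def StdL.cond {m : ℕ} (D : StdL m) (s : ℂ) : ℝ := D.q * ∏ j, (1 + ‖s + D.μ j‖)

/-- The coefficient `a(n)` of `- L'/L (s) = ∑ Λ(n) a(n) n^{-s}`: at a prime power `n = p^k` it is
the power sum `∑ j, (α p j)^k` of the Satake parameters (its values at other `n` play no role, as
there `Λ(n) = 0`). -/
noncomputable def StdL.a {m : ℕ} (D : StdL m) (n : ℕ) : ℂ :=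
  ∑ j, D.α n.minFac j ^ (n.factorization n.minFac)

/-- The analytic properties of the standard L-function of a unitary cuspidal automorphic
representation of `GL_m` over the rationals. They hold for all of these with `θ = 1/2 - 1/(m^2+1)`
(Luo, Rudnick, Sarnak) and `A` depending on `m` only, except for the shifts of the zeta
function in degree one, which are not entire. -/
structure StdL.IsStandard {m : ℕ} (D : StdL m) (θ A : ℝ) : Prop where
  /-- the conductor is positive -/
  q_pos : 0 < D.q
  /-- the root number has absolute value one -/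
  w_norm : ‖D.w‖ = 1
  /-- the bound for the Satake parameters -/
  satake : ∀ p : ℕ, p.Prime → ∀ j, ‖D.α p j‖ ≤ (p : ℝ) ^ θ
  /-- the bound for the archimedean parameters -/
  arch : ∀ j, -θ ≤ (D.μ j).re
  /-- the L-function is entire -/
  entire : Differentiable ℂ D.L
  /-- it has finite order in the strip `-1/4 ≤ Re s ≤ 5/4` -/
  order : ∃ B : ℝ, ∀ s : ℂ, -1 / 4 ≤ s.re → s.re ≤ 5 / 4 →
    ‖D.L s‖ ≤ Real.exp (B * (1 + |s.im|) ^ B)
  /-- the Euler product in the half plane `Re s > 1` -/
  euler : ∀ s : ℂ, 1 < s.re →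
    HasProd (fun p : Nat.Primes => ∏ j, (1 - D.α p j * ((p : ℕ) : ℂ) ^ (-s))⁻¹) (D.L s)
  /-- the functional equation, relating `L` to the dual L-function `s ↦ conj (L (conj s))` -/
  functional : ∀ s : ℂ, D.L s * ∏ j, (Complex.Gammaℝ (1 - s + (starRingEnd ℂ) (D.μ j)))⁻¹ =
    D.w * (D.q : ℂ) ^ (1 / 2 - s) * (starRingEnd ℂ) (D.L (1 - (starRingEnd ℂ) s)) *
      ∏ j, (Complex.Gammaℝ (s + D.μ j))⁻¹
  /-- the Rankin-Selberg sums converge in the half plane `σ > 1` -/
  rankin_summable : ∀ σ : ℝ, 1 < σ → Summable fun n : ℕ => Λ n * ‖D.a n‖ ^ 2 * (n : ℝ) ^ (-σ)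
  /-- the Rankin-Selberg upper bound near `σ = 1` -/
  rankin : ∀ σ : ℝ, 1 < σ → σ ≤ 2 → ∀ t : ℝ,
    ∑' n : ℕ, Λ n * ‖D.a n‖ ^ 2 * (n : ℝ) ^ (-σ) ≤
      A * (1 / (σ - 1) + Real.log (D.cond (1 / 2 + t * Complex.I)))

/-- the same data, in the notation of the file on weak subconvexity -/
def StdL.old {m : ℕ} (D : StdL m) : MP_cf4097_nt.WeakSubconvexity.StdL m :=
  ⟨D.q, D.μ, D.α, D.w, D.L⟩

lemma old_isStandard {m : ℕ} {D : StdL m} {θ A : ℝ} (H : D.IsStandard θ A) :
    D.old.IsStandard θ A :=
  ⟨H.q_pos, H.w_norm, H.satake, H.arch, H.entire, H.order, H.euler, H.functional,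
    H.rankin_summable, H.rankin⟩

/-- The class is not empty: with one absolute constant `A` and `θ = 0` it contains the Dirichlet
L-functions of all primitive characters of modulus `q > 1` (degree one; `μ` is `0` or `1` according
to the parity). -/
theorem isStandard_dirichlet : ∃ A : ℝ, ∀ (q : ℕ) [NeZero q] (χ : DirichletCharacter ℂ q),
    1 < q → χ.IsPrimitive →
    (StdL.mk q (fun _ => H370.DL.aa χ) (fun n _ => χ n) (DirichletCharacter.rootNumber χ)
      (DirichletCharacter.LFunction χ) : StdL 1).IsStandard 0 A := by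
  obtain ⟨A, hA⟩ := MP_cf4097_nt.WeakSubconvexity.isStandard_dirichlet
  refine ⟨A, fun q _ χ hq hχ => ?_⟩
  have H := hA q χ hq hχ
  exact ⟨H.q_pos, H.w_norm, H.satake, H.arch, H.entire, H.order, H.euler, H.functional,
    H.rankin_summable, H.rankin⟩

open Pool.Agent.R402.MeanSq Pool.Agent.R402.Ser Pool.Agent.R402.Core Pool.Agent.R402.Eul
open Pool.Agent.R402.Win

section
variable {m : ℕ} {D : StdL m}

lemma one_le_cond (hq : 0 < D.q) (s : ℂ) : 1 ≤ D.cond s :=
  MP_cf4097_nt.WeakSubconvexity.one_le_cond (D := D.old) hq s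

/-- the conductor changes slowly -/
lemma cond_le (D : StdL m) (t u : ℝ) : D.cond (1 / 2 + u * Complex.I) ≤
    D.cond (1 / 2 + t * Complex.I) * (1 + |u - t|) ^ m := by
  unfold StdL.cond
  have h1 : ∏ j, (1 + ‖1 / 2 + (u : ℂ) * Complex.I + D.μ j‖) ≤
      (∏ j, (1 + ‖1 / 2 + (t : ℂ) * Complex.I + D.μ j‖)) * (1 + |u - t|) ^ m := by
    have e1 : (1 + |u - t|) ^ m = ∏ _j : Fin m, (1 + |u - t|) := by simp
    rw [e1, ← Finset.prod_mul_distrib]
    apply Finset.prod_le_prod (fun _ _ => by positivity)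
    intro j _
    have h2 : 1 / 2 + (u : ℂ) * Complex.I + D.μ j =
        (1 / 2 + (t : ℂ) * Complex.I + D.μ j) + ((u - t : ℝ) : ℂ) * Complex.I := by
      push_cast; ring
    have h3 : ‖1 / 2 + (u : ℂ) * Complex.I + D.μ j‖ ≤
        ‖1 / 2 + (t : ℂ) * Complex.I + D.μ j‖ + |u - t| := by
      rw [h2]
      refine (norm_add_le _ _).trans ?_
      rw [norm_mul, Complex.norm_real, Complex.norm_I, mul_one, Real.norm_eq_abs]
    have h4 := norm_nonneg (1 / 2 + (t : ℂ) * Complex.I + D.μ j)
    nlinarith [abs_nonneg (u - t), mul_nonneg h4 (abs_nonneg (u - t))]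
  calc (D.q : ℝ) * ∏ j, (1 + ‖1 / 2 + (u : ℂ) * Complex.I + D.μ j‖) ≤
      D.q * ((∏ j, (1 + ‖1 / 2 + (t : ℂ) * Complex.I + D.μ j‖)) * (1 + |u - t|) ^ m) :=
        mul_le_mul_of_nonneg_left h1 (Nat.cast_nonneg _)
    _ = _ := by ring

lemma log_cond_le (hq : 0 < D.q) {t u T : ℝ} (hT : 2 ≤ T) (h : |u - t| ≤ T) :
    Real.log (D.cond (1 / 2 + u * Complex.I)) ≤
      Real.log (D.cond (1 / 2 + t * Complex.I)) + m * (1 + Real.log T) := by
  have h1 := cond_le D t u
  have h2 := one_le_cond hq (1 / 2 + u * Complex.I)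
  have h3 := one_le_cond hq (1 / 2 + t * Complex.I)
  have h4 := Real.log_le_log (by linarith) h1
  rw [Real.log_mul (by linarith) (by positivity), Real.log_pow] at h4
  have h5 : Real.log (1 + |u - t|) ≤ 1 + Real.log T := by
    have h6 : 1 + |u - t| ≤ Real.exp 1 * T := by
      have := Real.add_one_le_exp (1:ℝ)
      nlinarith
    have h7 := Real.log_le_log (by positivity) h6
    rw [Real.log_mul (Real.exp_pos 1).ne' (by linarith), Real.log_exp] at h7
    exact h7
  have h6 : (m : ℝ) * Real.log (1 + |u - t|) ≤ m * (1 + Real.log T) :=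
    mul_le_mul_of_nonneg_left h5 (Nat.cast_nonneg m)
  linarith

lemma cond_continuous (D : StdL m) : Continuous (fun τ : ℝ => D.cond (1 / 2 + τ * Complex.I)) := by
  unfold StdL.cond
  fun_prop

end

/-- **The second moment in windows.** For every degree `m`, every `θ < 1/2` and every `A` there are
`B` and `Q₁` such that for every standard L-function of degree `m` with parameters `θ` and `A`,
every real `t` for which the analytic conductor `Q = Q(1/2 + i t)` is at least `Q₁`, and every
`T` with `2 ≤ T` and `log T ≤ (log Q)^{1/4}`, the integral over `t ≤ τ ≤ t + T` of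
`|L(1/2 + i τ)|² / Q(1/2 + i τ)^{1/2}` is at most
`B · ((log T + log log Q) · log log Q)² / log Q`. -/
theorem result (m : ℕ) (θ A : ℝ) (hθ : θ < 1 / 2) :
    ∃ B Q₁ : ℝ, ∀ D : StdL m, D.IsStandard θ A → ∀ t T : ℝ,
      Q₁ ≤ D.cond (1 / 2 + t * Complex.I) → 2 ≤ T →
      Real.log T ≤ Real.log (D.cond (1 / 2 + t * Complex.I)) ^ (1 / 4 : ℝ) →
      ∫ τ in t..(t + T), ‖D.L (1 / 2 + τ * Complex.I)‖ ^ 2 /
          D.cond (1 / 2 + τ * Complex.I) ^ (1 / 2 : ℝ) ≤
        B * (((Real.log T + Real.log (Real.log (D.cond (1 / 2 + t * Complex.I)))) *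
          Real.log (Real.log (D.cond (1 / 2 + t * Complex.I)))) ^ 2 /
            Real.log (D.cond (1 / 2 + t * Complex.I))) := by
  obtain ⟨B, l0, hB0, hl04, hB⟩ := point_win A (d := m) (Cn := 24 ^ m) (θ := θ)
    (Nat.cast_nonneg m) (one_le_pow₀ (by norm_num)) hθ (M := 2 * m) (by positivity)
  set c1 : ℝ := 2 + Real.log (1 + 2 * m) with hc1
  have hm0 : (0:ℝ) ≤ m := Nat.cast_nonneg m
  have hlm : 0 ≤ Real.log (1 + 2 * m) := Real.log_nonneg (by linarith)
  have hc10 : 0 < c1 := by rw [hc1]; linarith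
  refine ⟨B * (c1 * c1) ^ 2 * (8 * Real.exp 1 * C4 * |A| + 1),
    Real.exp (max l0 (Real.exp 1)), fun D H t T hQ1 hT hTQ => ?_⟩
  have H' := old_isStandard H
  have hT0 : 0 < T := by linarith
  set Q : ℝ := D.cond (1 / 2 + t * Complex.I) with hQdef
  have hQge : 1 ≤ Q := one_le_cond H.q_pos _
  have hQ0 : 0 < Q := by linarith
  set L : ℝ := Real.log Q with hL
  have hLge : max l0 (Real.exp 1) ≤ L := by
    rw [hL, Real.le_log_iff_exp_le hQ0]; exact hQ1
  have hLl0 : l0 ≤ L := (le_max_left _ _).trans hLge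
  have hLe : Real.exp 1 ≤ L := (le_max_right _ _).trans hLge
  have hL4 : 4 ≤ L := by linarith
  have hL0 : 0 < L := by linarith
  have hLL : 1 ≤ Real.log L := by rw [Real.le_log_iff_exp_le hL0]; exact hLe
  have hlT : 0 < Real.log T := Real.log_pos (by linarith)
  set l : ℝ := L + m * (1 + Real.log T) with hl
  have hLl : L ≤ l := by
    have : 0 ≤ (m:ℝ) * (1 + Real.log T) := by positivity
    linarith
  have hl0 : 0 < l := by linarith
  have hl4 : 4 ≤ l := by linarith
  have hTl : Real.log T ≤ l ^ (1 / 4 : ℝ) :=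
    hTQ.trans (Real.rpow_le_rpow hL0.le hLl (by norm_num))
  have hTL : Real.log T ≤ L := by
    refine hTQ.trans ?_
    calc L ^ (1 / 4 : ℝ) ≤ L ^ (1 : ℝ) :=
          Real.rpow_le_rpow_of_exponent_le (by linarith) (by norm_num)
      _ = L := Real.rpow_one L
  have hlL : l ≤ (1 + 2 * m) * L := by
    have : (m:ℝ) * (1 + Real.log T) ≤ m * (2 * L) := mul_le_mul_of_nonneg_left (by linarith) hm0
    rw [hl]; linarith
  set c : ℕ → ℂ := cf D.old.α with hc
  set K : ℝ := B * ((WT l T * Real.log l) ^ 2 / l ^ 2) with hK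
  have hK0 : 0 ≤ K := by positivity
  have hσ : 1 < 1 + 1 / l := by
    have : 0 < 1 / l := by positivity
    linarith
  -- the pointwise bound
  have hpt : ∀ τ ∈ Set.Icc t (t + T), ‖D.L (1 / 2 + τ * Complex.I)‖ ^ 2 /
      D.cond (1 / 2 + τ * Complex.I) ^ (1 / 2 : ℝ) ≤
      K * (EE (hi T c) (1 + 1 / l) τ + l / T) := by
    intro τ hτ
    have hyp := MP_cf4097_nt.WeakSubconvexity.hyp_of hθ H' τ
    have hQτ : 1 ≤ D.cond (1 / 2 + τ * Complex.I) := one_le_cond H.q_pos _
    have h0 : |τ - t| ≤ T := by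
      rw [abs_of_nonneg (by linarith [hτ.1])]; linarith [hτ.2]
    have h1 := log_cond_le H.q_pos hT h0
    have h2 := log_cond_le H.q_pos hT (t := τ) (u := t) (by rw [abs_sub_comm]; exact h0)
    have h3 := hB l T (D.cond (1 / 2 + τ * Complex.I)) (hLl0.trans hLl) hT hTl
      (by rw [hl]; exact h1) (by rw [hl]; linarith) _ _ hyp
    have e1 : EE (hi T (tw c τ)) (1 + 1 / l) 0 = EE (hi T c) (1 + 1 / l) τ := by
      rw [hi_tw, EE_tw, zero_add]
    rw [e1] at h3
    have hr : 0 < D.cond (1 / 2 + τ * Complex.I) ^ (1 / 2 : ℝ) :=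
      Real.rpow_pos_of_pos (by linarith) _
    rw [div_le_iff₀ hr]
    refine h3.trans (le_of_eq ?_)
    rw [hK]
    ring
  -- the mean square
  have hPc : Summable (P c (1 + 1 / l)) := by
    have := (MP_cf4097_nt.WeakSubconvexity.hyp_of hθ H' t).summ (1 + 1 / l) hσ
    rwa [P_tw] at this
  have hPhi := (P_summ (norm_hi T c) hPc).1
  have hEc : Continuous (EE (hi T c) (1 + 1 / l)) := EE_continuous hσ hPhi
  have hsum : ∑' n, P c (1 + 1 / l) n ≤ 2 * |A| * l := by
    have := sumP_le (MP_cf4097_nt.WeakSubconvexity.hyp_of hθ H' t) hl4 hLl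
    rwa [P_tw] at this
  have hwin : ∫ τ in t..(t + T), EE (hi T c) (1 + 1 / l) τ ≤ 8 * Real.exp 1 * C4 * |A| * l := by
    have e1 : ∫ τ in t..(t + T), EE (hi T c) (1 + 1 / l) τ =
        ∫ τ in (0:ℝ)..T, EE (hi T (tw c t)) (1 + 1 / l) τ := by
      have e2 := intervalIntegral.integral_comp_add_right (a := 0) (b := T)
        (fun τ => EE (hi T c) (1 + 1 / l) τ) t
      rw [zero_add, add_comm T t] at e2
      rw [← e2]
      refine intervalIntegral.integral_congr fun τ _ => ?_
      rw [hi_tw, EE_tw]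
    rw [e1]
    have hP2 : Summable (P (hi T (tw c t)) (1 + 1 / l)) := by
      rw [hi_tw, P_tw]; exact hPhi
    refine (window_EE hT (hi_sup T _) hσ hP2).trans ?_
    have e3 : ∑' n, P (hi T (tw c t)) (1 + 1 / l) n ≤ 2 * |A| * l := by
      rw [hi_tw, P_tw]
      exact (P_summ (norm_hi T c) hPc).2.trans hsum
    have hC4 := C4_nonneg
    calc 4 * Real.exp 1 * (C4 * ∑' n, P (hi T (tw c t)) (1 + 1 / l) n) ≤
        4 * Real.exp 1 * (C4 * (2 * |A| * l)) := by gcongr
      _ = _ := by ring
  -- integration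
  have hcont : Continuous (fun τ : ℝ => ‖D.L (1 / 2 + τ * Complex.I)‖ ^ 2 /
      D.cond (1 / 2 + τ * Complex.I) ^ (1 / 2 : ℝ)) := by
    have h1 : Continuous (fun τ : ℝ => D.L (1 / 2 + τ * Complex.I)) :=
      H.entire.continuous.comp (by fun_prop)
    refine (h1.norm.pow 2).div ?_ (fun τ => ?_)
    · exact (cond_continuous D).rpow_const (fun τ => Or.inr (by norm_num))
    · have : 1 ≤ D.cond (1 / 2 + τ * Complex.I) := one_le_cond H.q_pos _
      exact (Real.rpow_pos_of_pos (by linarith) _).ne'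
  have hint : ∫ τ in t..(t + T), ‖D.L (1 / 2 + τ * Complex.I)‖ ^ 2 /
      D.cond (1 / 2 + τ * Complex.I) ^ (1 / 2 : ℝ) ≤
      ∫ τ in t..(t + T), K * (EE (hi T c) (1 + 1 / l) τ + l / T) := by
    refine intervalIntegral.integral_mono_on (by linarith) (hcont.intervalIntegrable _ _)
      (Continuous.intervalIntegrable (by fun_prop) _ _) hpt
  have hint2 : ∫ τ in t..(t + T), K * (EE (hi T c) (1 + 1 / l) τ + l / T) ≤
      K * (8 * Real.exp 1 * C4 * |A| * l + l) := by
    rw [intervalIntegral.integral_const_mul, intervalIntegral.integral_add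
      (hEc.intervalIntegrable _ _) (continuous_const.intervalIntegrable _ _),
      intervalIntegral.integral_const]
    refine mul_le_mul_of_nonneg_left ?_ hK0
    have : (t + T - t) • (l / T) = l := by
      rw [smul_eq_mul]; field_simp; ring
    rw [this]
    linarith
  refine (hint.trans hint2).trans ?_
  -- the sizes
  have hlog : Real.log l ≤ c1 * Real.log L := by
    have h1 := Real.log_le_log hl0 hlL
    rw [Real.log_mul (by linarith) hL0.ne'] at h1
    rw [hc1]
    nlinarith
  have hlogl0 : 0 ≤ Real.log l := Real.log_nonneg (by linarith)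
  have hW : WT l T ≤ c1 * (Real.log T + Real.log L) := by
    have h1 := Real.log_le_log hl0 hlL
    rw [Real.log_mul (by linarith) hL0.ne'] at h1
    unfold WT
    rw [hc1]
    nlinarith [mul_nonneg hlm hlT.le]
  have hW0 : 0 ≤ WT l T := by unfold WT; linarith
  have hprod : (WT l T * Real.log l) ^ 2 ≤
      (c1 * c1) ^ 2 * ((Real.log T + Real.log L) * Real.log L) ^ 2 := by
    rw [← mul_pow]
    refine pow_le_pow_left₀ (by positivity) ?_ 2
    calc WT l T * Real.log l ≤ (c1 * (Real.log T + Real.log L)) * (c1 * Real.log L) := by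
          apply mul_le_mul hW hlog hlogl0
          have : 0 < Real.log L := by linarith
          positivity
      _ = _ := by ring
  have hC4 := C4_nonneg
  have hcon : 0 ≤ 8 * Real.exp 1 * C4 * |A| + 1 := by positivity
  have hnum : 0 ≤ ((Real.log T + Real.log L) * Real.log L) ^ 2 := by positivity
  calc K * (8 * Real.exp 1 * C4 * |A| * l + l) =
      B * (8 * Real.exp 1 * C4 * |A| + 1) * ((WT l T * Real.log l) ^ 2 / l) := by
        rw [hK]; field_simp
    _ ≤ B * (8 * Real.exp 1 * C4 * |A| + 1) *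
        ((c1 * c1) ^ 2 * ((Real.log T + Real.log L) * Real.log L) ^ 2 / L) := by
        refine mul_le_mul_of_nonneg_left ?_ (by positivity)
        exact div_le_div₀ (by positivity) hprod hL0 hLl
    _ = _ := by ring

end Pool.Agent.Results.MP_52e316_nt.SecondMomentWindows
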