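import Mathlib
import Pool.Agent.H983R4.GL.F3
import Pool.Agent.H855R2.SF.Dir
import Pool.Agent.R303.LG.A2

/-!
# Thin sublevel sets near large values of L-functions of `GL(m)`; a one-radius criterion for Lindelöf

Let `π` run through (a family of) cuspidal representations of `GL(m)`, normalised as in the problem, let
`X = (1 + |T|) C_π` and let `Q = N ∏ (1 + |μ_j - iT|)` be the analytic conductor at height `T`.  Let
`Low T r v` be the set of the ordinates of the points `s` of the disc `|s - (1/2 + iT)| ≤ r` with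
`|L(s, π)| ≤ v`.

* (law for large values)  There is `c > 0` such that, for `0 < ε ≤ 1` and `X` large, uniformly in `π`: if
  `V = |L(1/2 + iT, π)| ≥ 1` and `D = log Q - 4 log V + ε log X`, then `D > 0` and there is `T₀` at bounded
  distance from `T` with `|L(1/2 + iT₀, π)| ≥ V` such that, for EVERY radius `0 < r ≤ c ε`, the set
  `Low T₀ r (X^(-ε) V)` has (outer) Lebesgue measure at most `41 r exp (-ε log X / (2 (1 + r D)))`.
  So its proportion is `O(X^(-c ε))` for the radii `r ≤ 1 / log X` and `O(exp (-c ε / r))` for the larger ones,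
  always; and `O(X^(-ε / (2 + 2 r D)))` with the small `D` if `V` is close to the convexity bound `Q^(1/4)`.
* (criterion)  With the same `c`, for every `κ ≥ 0`: `L(1/2 + iT, π) = O(X^(κ + ε))` for all `ε > 0`, uniformly in
  the family (`κ = 0`: the Grand Lindelöf Hypothesis), if and only if for every `ε` in `(0, 1]` and all `π`, `T` with
  `X` large there is ONE radius `0 < r ≤ c ε` for which the measure of `Low T r (X^(κ + ε))` exceeds
  `41 r exp (-ε log X / (4 (1 + r max (log Q - 4 κ log X) 0)))`.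

So, were the Grand Lindelöf Hypothesis false, there would be `ε > 0` and `π`, `T` with arbitrarily large `X` for
which, in all the discs of radius `r ≤ c ε` about `1/2 + iT`, the points with `|L(s, π)| ≤ X^ε`, hence all the
zeros too, are confined to horizontal lines the ordinates of which fill an exponentially small part of the window.

The theorem uses only classical facts: the functional equation, `Re μ_j < 1/2`, finite order, and Molteni's
bound `L(σ + it, π) = O(C_π^ε)` in `σ ≥ 1 + ε`.  For primitive Dirichlet characters of modulus `q > 1`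
(`m = 1`) all of them are proved and the result holds with `X = Q = q (1 + |T|)`.

Proof.  Near a weighted maximum `s₀` the function `G(z)`, which is `L(s₀ + z)` times `Q^(z/2)` and a Gaussian
factor, is at most `M exp (τ |Re z|)` with `2 τ ≤ D` (`Pool.Agent.TH804.DL.peak_local`).  A set of ordinates of
measure `m` contains `n` points with distances at least `m / (2n)`, and the Lagrange interpolation polynomial at
such points is at most `n e (C r / m)^(n-1)` times the maximum at the nodes.  With `n` slightly larger than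
`(e r / π) D + 1` Jensen's formula for `G` minus this polynomial in the disc of radius `e r` gives a contradiction.
-/

set_option autoImplicit false

open Filter Topology MeasureTheory Real Set

namespace Pool.Agent.Results.MP_52e316_nt.ThinSublevelSetsGLm

/-- The data of a standard L-function of `GL(m)`: the conductor `N`, the archimedean parameters `mu j` (the
factor at infinity is `∏ j, Γ_ℝ (s - mu j)`) and the L-function `f` (continued to the complex plane). -/
structure Datum (m : ℕ) where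
  N : ℕ
  mu : Fin m → ℂ
  f : ℂ → ℂ

/-- The analytic conductor `C = N ∏ j, (1 + |mu j|)`. -/
noncomputable def Datum.C {m : ℕ} (D : Datum m) : ℝ := D.N * ∏ j, (1 + ‖D.mu j‖)

/-- The analytic conductor at height `t`, `Q = N ∏ j, (1 + |mu j - i t|)`. -/
noncomputable def Datum.Q {m : ℕ} (D : Datum m) (t : ℝ) : ℝ :=
  D.N * ∏ j, (1 + ‖D.mu j - t * Complex.I‖)

/-- The classical properties: `N ≥ 1`, `Re (mu j) < 1/2`, `f` is entire, of finite order in the strip
`-1/4 ≤ Re s ≤ 5/4`, and satisfies the functional equation `Λ(s) = root N^(1/2-s) conj (Λ(1 - conj s))`,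
`Λ(s) = f(s) ∏ j, Γ_ℝ (s - mu j)`, with `|root| = 1` (divided by the gamma factors of both sides). -/
structure Datum.Ok {m : ℕ} (D : Datum m) : Prop where
  N_pos : 0 < D.N
  mu_re : ∀ j, (D.mu j).re < 1 / 2
  entire : Differentiable ℂ D.f
  order : ∃ A : ℝ, ∀ s : ℂ, -1 / 4 ≤ s.re → s.re ≤ 5 / 4 →
    ‖D.f s‖ ≤ Real.exp (A * (1 + |s.im|) ^ A)
  fe : ∃ root : ℂ, ‖root‖ = 1 ∧ ∀ s : ℂ,
    D.f s * ∏ j, (Complex.Gammaℝ (1 - s - (starRingEnd ℂ) (D.mu j)))⁻¹ =
      root * (D.N : ℂ) ^ (1 / 2 - s) * (starRingEnd ℂ) (D.f (1 - (starRingEnd ℂ) s)) *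
        ∏ j, (Complex.Gammaℝ (s - D.mu j))⁻¹

/-- Molteni's bound to the right of the critical strip, uniform in the family. -/
def Molteni {ι : Type} {m : ℕ} (D : ι → Datum m) : Prop := ∀ ε : ℝ, 0 < ε → ∃ B : ℝ, ∀ (i : ι) (s : ℂ),
  1 + ε ≤ s.re → ‖(D i).f s‖ ≤ B * (D i).C ^ ε

variable {ι : Type}

/-- `|L i (1/2 + iT)| = O(X^(κ + ε))`, uniformly in the family; `κ = 0` is the Lindelöf hypothesis. -/
def Exponent (L : ι → ℂ → ℂ) (X : ι → ℝ → ℝ) (κ : ℝ) : Prop :=
  ∀ ε : ℝ, 0 < ε → ∃ B : ℝ, ∀ (i : ι) (T : ℝ), ‖L i (1 / 2 + T * Complex.I)‖ ≤ B * X i T ^ (κ + ε)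

/-- The ordinates of the points `s` of the disc `|s - (1/2 + iT)| ≤ r` with `|L i s| ≤ v`. -/
def Low (L : ι → ℂ → ℂ) (i : ι) (T r v : ℝ) : Set ℝ :=
  {t : ℝ | ∃ s : ℂ, s.im = t ∧ ‖s - (1 / 2 + T * Complex.I)‖ ≤ r ∧ ‖L i s‖ ≤ v}

/-- `D = log Q - 4 log |L i (1/2 + iT)| + ε log X` -/
noncomputable def DD (L : ι → ℂ → ℂ) (X Q : ι → ℝ → ℝ) (i : ι) (ε T : ℝ) : ℝ :=
  Real.log (Q i T) - 4 * Real.log ‖L i (1 / 2 + T * Complex.I)‖ + ε * Real.log (X i T)

/-- The law for large values with the constant `c`. -/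
def Law (L : ι → ℂ → ℂ) (X Q : ι → ℝ → ℝ) (c : ℝ) : Prop := ∀ ε : ℝ, 0 < ε → ε ≤ 1 →
  ∃ W X₁ : ℝ, ∀ (i : ι) (T : ℝ), X₁ ≤ X i T → 1 ≤ ‖L i (1 / 2 + T * Complex.I)‖ →
    0 < DD L X Q i ε T ∧
    ∃ T₀ : ℝ, |T₀ - T| ≤ W ∧ ‖L i (1 / 2 + T * Complex.I)‖ ≤ ‖L i (1 / 2 + T₀ * Complex.I)‖ ∧
      ∀ r : ℝ, 0 < r → r ≤ c * ε →
        volume (Low L i T₀ r (X i T ^ (-ε) * ‖L i (1 / 2 + T * Complex.I)‖)) ≤
          ENNReal.ofReal (41 * r * Real.exp (-(ε * Real.log (X i T) /
            (2 * (1 + r * DD L X Q i ε T)))))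

/-- For every `ε` in `(0, 1]` and all `i`, `T` with `X i T` large there is one radius `r` in `(0, c ε]` for which
the set of the ordinates of the points `s`, `|s - (1/2 + iT)| ≤ r`, with `|L i s| ≤ X^(κ + ε)` is not
exponentially thin. -/
def Thick (L : ι → ℂ → ℂ) (X Q : ι → ℝ → ℝ) (c κ : ℝ) : Prop :=
  ∀ ε : ℝ, 0 < ε → ε ≤ 1 → ∃ X₁ : ℝ, ∀ (i : ι) (T : ℝ), X₁ ≤ X i T → ∃ r : ℝ, 0 < r ∧ r ≤ c * ε ∧
    ENNReal.ofReal (41 * r * Real.exp (-(ε * Real.log (X i T) /
      (4 * (1 + r * max (Real.log (Q i T) - 4 * κ * Real.log (X i T)) 0))))) <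
    volume (Low L i T r (X i T ^ (κ + ε)))

/-- The conclusion for a family `L i` with the conductors `X i T` and `Q i T` at height `T`. -/
def Conclusion (L : ι → ℂ → ℂ) (X Q : ι → ℝ → ℝ) : Prop :=
  ∃ c : ℝ, 0 < c ∧ Law L X Q c ∧ ∀ κ : ℝ, 0 ≤ κ → (Exponent L X κ ↔ Thick L X Q c κ)

section proofs

open Pool.Agent.H983R4.GL H855R2.SF W587.PL

theorem conclusion_of {L : ι → ℂ → ℂ} {X Q : ι → ℝ → ℝ} (H : Fam2 L X Q) : Conclusion L X Q :=
  Pool.Agent.R303.LG.main H

theorem Datum.C_one {m : ℕ} {D : Datum m} (h : 0 < D.N) : 1 ≤ D.C := by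
  have := cond_one_le h D.mu 0
  unfold Datum.C
  simpa using this

theorem Datum.Q_le {m : ℕ} {D : Datum m} (t : ℝ) : D.Q t ≤ (1 + |t|) ^ (m : ℝ) * D.C := by
  have h2 := cond_shift D.N D.mu 0 t
  have e1 : D.N * ∏ j, (1 + ‖D.mu j - ((0 : ℝ) : ℂ) * Complex.I‖) = D.C := by
    unfold Datum.C; simp
  rw [e1, zero_add] at h2
  exact h2

theorem Datum.Q_le' {m : ℕ} {D : Datum m} (h : 0 < D.N) (t : ℝ) :
    D.Q t ≤ ((1 + |t|) * D.C) ^ (m + 1 : ℝ) := by
  have h1 := Datum.C_one h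
  have ht : 1 ≤ 1 + |t| := by linarith [abs_nonneg t]
  refine (Datum.Q_le t).trans ?_
  rw [Real.mul_rpow (by positivity) (by linarith)]
  refine mul_le_mul ?_ ?_ (by linarith) (by positivity)
  · exact Real.rpow_le_rpow_of_exponent_le ht (by linarith)
  · conv_lhs => rw [← Real.rpow_one D.C]
    exact Real.rpow_le_rpow_of_exponent_le h1 (by
      have : (0 : ℝ) ≤ m := Nat.cast_nonneg _
      linarith)

theorem X_shift {m : ℕ} {D : Datum m} (h : 0 < D.N) (t u : ℝ) :
    (1 + |t + u|) * D.C ≤ (1 + |u|) * ((1 + |t|) * D.C) := by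
  have h1 := Datum.C_one h
  have h2 : 1 + |t + u| ≤ (1 + |u|) * (1 + |t|) := by
    have := abs_add_le t u
    nlinarith [abs_nonneg t, abs_nonneg u, mul_nonneg (abs_nonneg t) (abs_nonneg u)]
  calc (1 + |t + u|) * D.C ≤ ((1 + |u|) * (1 + |t|)) * D.C :=
        mul_le_mul_of_nonneg_right h2 (by linarith)
    _ = _ := by ring

theorem right_gl {m : ℕ} {D : ι → Datum m} (hD : ∀ i, (D i).Ok) (hM : Molteni D) :
    ∀ δ : ℝ, 0 < δ → ∃ B : ℝ, ∀ i (s : ℂ), 1 + δ ≤ s.re →
      ‖(D i).f s‖ ≤ B * ((1 + |s.im|) * (D i).C) ^ δ := by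
  intro δ hδ
  obtain ⟨B, hB⟩ := hM δ hδ
  refine ⟨|B|, fun i s hs => ?_⟩
  have h1 := Datum.C_one (hD i).N_pos
  refine (hB i s hs).trans ?_
  have h2 : (D i).C ≤ (1 + |s.im|) * (D i).C := by
    nlinarith [abs_nonneg s.im]
  calc B * (D i).C ^ δ ≤ |B| * (D i).C ^ δ :=
        mul_le_mul_of_nonneg_right (le_abs_self B) (Real.rpow_nonneg (by linarith) _)
    _ ≤ _ := mul_le_mul_of_nonneg_left (Real.rpow_le_rpow (by linarith) h2 hδ.le) (abs_nonneg B)

theorem refl_gl {m : ℕ} {D : Datum m} (hD : D.Ok) {x t : ℝ} (hx0 : 0 ≤ x) (hx1 : x ≤ 3 / 4) :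
    ‖D.f ⟨1 / 2 - x, t⟩‖ ≤ 16 ^ m * D.Q t ^ x * ‖D.f ⟨1 / 2 + x, t⟩‖ := by
  obtain ⟨root, hroot, hfe⟩ := hD.fe
  exact refl_of_fe hD.N_pos D.mu hD.mu_re hroot hfe hx0 hx1

theorem afam_gl {m : ℕ} {D : ι → Datum m} (hD : ∀ i, (D i).Ok) (hM : Molteni D) :
    AFam (m + 1 : ℝ) (fun i => (D i).f) (fun i t => ((1 + |t|) * (D i).C) ^ (m + 1 : ℝ)) where
  m0 := by positivity
  Q1 := by
    intro i t
    refine Real.one_le_rpow ?_ (by positivity)
    have h1 := Datum.C_one (hD i).N_pos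
    nlinarith [abs_nonneg t]
  Qs := by
    intro i t u
    have h1 := Datum.C_one (hD i).N_pos
    rw [← Real.mul_rpow (by positivity) (by positivity)]
    exact Real.rpow_le_rpow (by positivity) (X_shift (hD i).N_pos t u) (by positivity)
  diff := fun i => (hD i).entire
  order := fun i => (hD i).order
  right := by
    intro δ hδ
    obtain ⟨B, hB⟩ := right_gl hD hM δ hδ
    refine ⟨|B|, fun i s hs => ?_⟩
    have h1 := Datum.C_one (hD i).N_pos
    have h0 : 1 ≤ (1 + |s.im|) * (D i).C := by nlinarith [abs_nonneg s.im]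
    refine (hB i s hs).trans ?_
    have h3 : (1 + |s.im|) * (D i).C ≤ ((1 + |s.im|) * (D i).C) ^ (m + 1 : ℝ) := by
      conv_lhs => rw [← Real.rpow_one ((1 + |s.im|) * (D i).C)]
      refine Real.rpow_le_rpow_of_exponent_le h0 ?_
      have : (0 : ℝ) ≤ m := Nat.cast_nonneg _
      linarith
    calc B * ((1 + |s.im|) * (D i).C) ^ δ ≤ |B| * ((1 + |s.im|) * (D i).C) ^ δ :=
          mul_le_mul_of_nonneg_right (le_abs_self B) (Real.rpow_nonneg (by linarith) _)
      _ ≤ _ := mul_le_mul_of_nonneg_left (Real.rpow_le_rpow (by linarith) h3 hδ.le) (abs_nonneg B)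
  refl := by
    refine ⟨16 ^ m, by positivity, fun i x t hx0 hx1 => ?_⟩
    refine (refl_gl (hD i) (t := t) hx0 hx1).trans ?_
    refine mul_le_mul_of_nonneg_right ?_ (norm_nonneg _)
    refine mul_le_mul_of_nonneg_left ?_ (by positivity)
    have h1 := cond_one_le (hD i).N_pos (D i).mu t
    exact Real.rpow_le_rpow (by unfold Datum.Q; linarith) (Datum.Q_le' (hD i).N_pos t) hx0

theorem fam2_gl {m : ℕ} {D : ι → Datum m} (hD : ∀ i, (D i).Ok) (hM : Molteni D) :
    Fam2 (fun i => (D i).f) (fun i t => (1 + |t|) * (D i).C) (fun i t => (D i).Q t) where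
  X1 := by
    intro i t
    have h1 := Datum.C_one (hD i).N_pos
    nlinarith [abs_nonneg t]
  Q1 := fun i t => cond_one_le (hD i).N_pos (D i).mu t
  Xs := ⟨1, zero_le_one, fun i t u => by rw [Real.rpow_one]; exact X_shift (hD i).N_pos t u⟩
  Qs := ⟨m, Nat.cast_nonneg _, fun i t u => cond_shift (D i).N (D i).mu t u⟩
  QX := ⟨m + 1, by positivity, fun i t => Datum.Q_le' (hD i).N_pos t⟩
  diff := fun i => (hD i).entire
  right := right_gl hD hM
  refl := ⟨16 ^ m, by positivity, fun i x t hx0 hx1 => refl_gl (hD i) hx0 hx1⟩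
  crude := by
    obtain ⟨C, hC, h⟩ := crude (afam_gl hD hM)
    exact ⟨C, m + 1, by linarith, by positivity, h⟩

theorem fam2_of_afam {m : ℝ} {L : ι → ℂ → ℂ} {Q : ι → ℝ → ℝ} (H : AFam m L Q) : Fam2 L Q Q where
  X1 := H.Q1
  Q1 := H.Q1
  Xs := ⟨m, H.m0, H.Qs⟩
  Qs := ⟨m, H.m0, H.Qs⟩
  QX := ⟨1, zero_le_one, fun i t => by rw [Real.rpow_one]⟩
  diff := H.diff
  right := H.right
  refl := H.refl
  crude := by
    obtain ⟨C, hC, h⟩ := crude H
    exact ⟨C, 1, by linarith, zero_le_one, fun i s hs => by rw [Real.rpow_one]; exact h i s hs⟩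

theorem Fam2.comp {ι' : Type} {L : ι → ℂ → ℂ} {X Q : ι → ℝ → ℝ} (H : Fam2 L X Q) (g : ι' → ι) :
    Fam2 (fun i => L (g i)) (fun i => X (g i)) (fun i => Q (g i)) where
  X1 := fun i => H.X1 (g i)
  Q1 := fun i => H.Q1 (g i)
  Xs := by obtain ⟨m, hm, h⟩ := H.Xs; exact ⟨m, hm, fun i => h (g i)⟩
  Qs := by obtain ⟨m, hm, h⟩ := H.Qs; exact ⟨m, hm, fun i => h (g i)⟩
  QX := by obtain ⟨m, hm, h⟩ := H.QX; exact ⟨m, hm, fun i => h (g i)⟩
  diff := fun i => H.diff (g i)
  right := by intro δ hδ; obtain ⟨B, h⟩ := H.right δ hδ; exact ⟨B, fun i => h (g i)⟩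
  refl := by obtain ⟨m, hm, h⟩ := H.refl; exact ⟨m, hm, fun i => h (g i)⟩
  crude := by obtain ⟨C, B, hC, hB, h⟩ := H.crude; exact ⟨C, B, hC, hB, fun i => h (g i)⟩

end proofs

/-- **Thin sublevel sets near large values; a one-radius criterion for the Grand Lindelöf Hypothesis.** -/
theorem result :
    (∀ (ι : Type) (m : ℕ) (D : ι → Datum m), (∀ i, (D i).Ok) → Molteni D →
      Conclusion (fun i => (D i).f) (fun i T => (1 + |T|) * (D i).C) (fun i T => (D i).Q T)) ∧
    (∀ (ι : Type) (q : ι → ℕ) [∀ i, NeZero (q i)] (χ : (i : ι) → DirichletCharacter ℂ (q i)),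
      (∀ i, 1 < q i ∧ (χ i).IsPrimitive) →
      Conclusion (fun i => DirichletCharacter.LFunction (χ i)) (fun i T => (q i : ℝ) * (1 + |T|))
        (fun i T => (q i : ℝ) * (1 + |T|))) := by
  refine ⟨fun ι m D hD hM => conclusion_of (fam2_gl hD hM), fun ι q _ χ h => conclusion_of ?_⟩
  exact Fam2.comp (fam2_of_afam (H855R2.SF.dir_afam (fun _ _ => True)))
    (fun i => (⟨q i, (h i).1, χ i, (h i).2, trivial⟩ : H855R2.SF.DC (fun _ _ => True)))

end Pool.Agent.Results.MP_52e316_nt.ThinSublevelSetsGLm
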