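import Mathlib
import Pool.Agent.R402.W11
import Pool.Agent.Results.MP_cf4097_nt.WeakSubconvexity

/-!
# Zero density near the edge for `GL(m)`, in long windows, without a factor for the length

For every L-function of degree `m` with the analytic properties of the standard L-function of a
unitary cuspidal automorphic representation of `GL_m` over the rationals (Euler product with
Satake parameters of size at most `p^θ`, `θ < 1/2`, functional equation, entire of finite order,
Rankin-Selberg upper bound), for every real `t` with `Q = Q(1/2 + i t)` large, every `T` with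
`2 ≤ T ≤ exp ((log Q)^{1/5})` and every `σ` with `1 - σ ≤ (log Q)^{-4/5}`, the number of zeros
`ρ` with `Re ρ ≥ σ` and `t ≤ Im ρ ≤ t + T`, counted with multiplicity, is at most

`B · Q^{1 - σ} · ((1 + (1 - σ) log Q) · log log Q)²`,

with `B` depending on `m`, `θ` and the Rankin-Selberg constant `A` only.
-/

set_option autoImplicit false

open MeasureTheory
open scoped ArithmeticFunction.vonMangoldt

namespace Pool.Agent.Results.MP_52e316_nt.WindowZeroDensity

/-- The data of a standard L-function of degree `m` over the rationals: the arithmetic conductor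
`q`, the archimedean parameters `μ j` (the gamma factor is `∏ j, Γ_ℝ(s + μ j)`), the Satake
parameters `α p j` at the primes `p` (some of them zero at ramified primes; the values `α n j` at
non-primes `n` play no role), the root number `w` and the L-function `L`. -/
structure StdL (m : ℕ) where
  /-- the arithmetic conductor -/
  q : ℕ
  /-- the archimedean parameters -/
  μ : Fin m → ℂ
  /-- the Satake parameters -/
  α : ℕ → Fin m → ℂ
  /-- the root number -/
  w : ℂ
  /-- the L-function -/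
  L : ℂ → ℂ

/-- The analytic conductor `Q(s) = q ∏ j, (1 + |s + μ j|)`. -/
noncomputable def StdL.cond {m : ℕ} (D : StdL m) (s : ℂ) : ℝ := D.q * ∏ j, (1 + ‖s + D.μ j‖)

/-- The coefficient `a(n)` of `- L'/L (s) = ∑ Λ(n) a(n) n^{-s}`: at a prime power `n = p^k` it is
the power sum `∑ j, (α p j)^k` of the Satake parameters (its values at other `n` play no role, as
there `Λ(n) = 0`). -/
noncomputable def StdL.a {m : ℕ} (D : StdL m) (n : ℕ) : ℂ :=
  ∑ j, D.α n.minFac j ^ (n.factorization n.minFac)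

/-- The analytic properties of the standard L-function of a unitary cuspidal automorphic
representation of `GL_m` over the rationals. They hold for all of these with `θ = 1/2 - 1/(m^2+1)`
(Luo, Rudnick, Sarnak) and `A` depending on `m` only, except for the shifts of the zeta
function in degree one, which are not entire. -/
structure StdL.IsStandard {m : ℕ} (D : StdL m) (θ A : ℝ) : Prop where
  /-- the conductor is positive -/
  q_pos : 0 < D.q
  /-- the root number has absolute value one -/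
  w_norm : ‖D.w‖ = 1
  /-- the bound for the Satake parameters -/
  satake : ∀ p : ℕ, p.Prime → ∀ j, ‖D.α p j‖ ≤ (p : ℝ) ^ θ
  /-- the bound for the archimedean parameters -/
  arch : ∀ j, -θ ≤ (D.μ j).re
  /-- the L-function is entire -/
  entire : Differentiable ℂ D.L
  /-- it has finite order in the strip `-1/4 ≤ Re s ≤ 5/4` -/
  order : ∃ B : ℝ, ∀ s : ℂ, -1 / 4 ≤ s.re → s.re ≤ 5 / 4 →
    ‖D.L s‖ ≤ Real.exp (B * (1 + |s.im|) ^ B)
  /-- the Euler product in the half plane `Re s > 1` -/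
  euler : ∀ s : ℂ, 1 < s.re →
    HasProd (fun p : Nat.Primes => ∏ j, (1 - D.α p j * ((p : ℕ) : ℂ) ^ (-s))⁻¹) (D.L s)
  /-- the functional equation, relating `L` to the dual L-function `s ↦ conj (L (conj s))` -/
  functional : ∀ s : ℂ, D.L s * ∏ j, (Complex.Gammaℝ (1 - s + (starRingEnd ℂ) (D.μ j)))⁻¹ =
    D.w * (D.q : ℂ) ^ (1 / 2 - s) * (starRingEnd ℂ) (D.L (1 - (starRingEnd ℂ) s)) *
      ∏ j, (Complex.Gammaℝ (s + D.μ j))⁻¹
  /-- the Rankin-Selberg sums converge in the half plane `σ > 1` -/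
  rankin_summable : ∀ σ : ℝ, 1 < σ → Summable fun n : ℕ => Λ n * ‖D.a n‖ ^ 2 * (n : ℝ) ^ (-σ)
  /-- the Rankin-Selberg upper bound near `σ = 1` -/
  rankin : ∀ σ : ℝ, 1 < σ → σ ≤ 2 → ∀ t : ℝ,
    ∑' n : ℕ, Λ n * ‖D.a n‖ ^ 2 * (n : ℝ) ^ (-σ) ≤
      A * (1 / (σ - 1) + Real.log (D.cond (1 / 2 + t * Complex.I)))

/-- the same data, in the notation of the file on weak subconvexity -/
def StdL.old {m : ℕ} (D : StdL m) : MP_cf4097_nt.WeakSubconvexity.StdL m :=
  ⟨D.q, D.μ, D.α, D.w, D.L⟩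

lemma old_isStandard {m : ℕ} {D : StdL m} {θ A : ℝ} (H : D.IsStandard θ A) :
    D.old.IsStandard θ A :=
  ⟨H.q_pos, H.w_norm, H.satake, H.arch, H.entire, H.order, H.euler, H.functional,
    H.rankin_summable, H.rankin⟩

/-- The class is not empty: with one absolute constant `A` and `θ = 0` it contains the Dirichlet
L-functions of all primitive characters of modulus `q > 1` (degree one; `μ` is `0` or `1` according
to the parity). -/
theorem isStandard_dirichlet : ∃ A : ℝ, ∀ (q : ℕ) [NeZero q] (χ : DirichletCharacter ℂ q),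
    1 < q → χ.IsPrimitive →
    (StdL.mk q (fun _ => H370.DL.aa χ) (fun n _ => χ n) (DirichletCharacter.rootNumber χ)
      (DirichletCharacter.LFunction χ) : StdL 1).IsStandard 0 A := by
  obtain ⟨A, hA⟩ := MP_cf4097_nt.WeakSubconvexity.isStandard_dirichlet
  refine ⟨A, fun q _ χ hq hχ => ?_⟩
  have H := hA q χ hq hχ
  exact ⟨H.q_pos, H.w_norm, H.satake, H.arch, H.entire, H.order, H.euler, H.functional,
    H.rankin_summable, H.rankin⟩

open Pool.Agent.R402.MeanSq Pool.Agent.R402.Ser Pool.Agent.R402.Core Pool.Agent.R402.Eul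
open Pool.Agent.R402.Win

section
variable {m : ℕ} {D : StdL m}

lemma one_le_cond (hq : 0 < D.q) (s : ℂ) : 1 ≤ D.cond s :=
  MP_cf4097_nt.WeakSubconvexity.one_le_cond (D := D.old) hq s

/-- the conductor changes slowly -/
lemma cond_le (D : StdL m) (t u : ℝ) : D.cond (1 / 2 + u * Complex.I) ≤
    D.cond (1 / 2 + t * Complex.I) * (1 + |u - t|) ^ m := by
  unfold StdL.cond
  have h1 : ∏ j, (1 + ‖1 / 2 + (u : ℂ) * Complex.I + D.μ j‖) ≤
      (∏ j, (1 + ‖1 / 2 + (t : ℂ) * Complex.I + D.μ j‖)) * (1 + |u - t|) ^ m := by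
    have e1 : (1 + |u - t|) ^ m = ∏ _j : Fin m, (1 + |u - t|) := by simp
    rw [e1, ← Finset.prod_mul_distrib]
    apply Finset.prod_le_prod (fun _ _ => by positivity)
    intro j _
    have h2 : 1 / 2 + (u : ℂ) * Complex.I + D.μ j =
        (1 / 2 + (t : ℂ) * Complex.I + D.μ j) + ((u - t : ℝ) : ℂ) * Complex.I := by
      push_cast; ring
    have h3 : ‖1 / 2 + (u : ℂ) * Complex.I + D.μ j‖ ≤
        ‖1 / 2 + (t : ℂ) * Complex.I + D.μ j‖ + |u - t| := by
      rw [h2]
      refine (norm_add_le _ _).trans ?_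
      rw [norm_mul, Complex.norm_real, Complex.norm_I, mul_one, Real.norm_eq_abs]
    have h4 := norm_nonneg (1 / 2 + (t : ℂ) * Complex.I + D.μ j)
    nlinarith [abs_nonneg (u - t), mul_nonneg h4 (abs_nonneg (u - t))]
  calc (D.q : ℝ) * ∏ j, (1 + ‖1 / 2 + (u : ℂ) * Complex.I + D.μ j‖) ≤
      D.q * ((∏ j, (1 + ‖1 / 2 + (t : ℂ) * Complex.I + D.μ j‖)) * (1 + |u - t|) ^ m) :=
        mul_le_mul_of_nonneg_left h1 (Nat.cast_nonneg _)
    _ = _ := by ring

lemma log_cond_le (hq : 0 < D.q) {t u T : ℝ} (hT : 2 ≤ T) (h : |u - t| ≤ T) :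
    Real.log (D.cond (1 / 2 + u * Complex.I)) ≤
      Real.log (D.cond (1 / 2 + t * Complex.I)) + m * (1 + Real.log T) := by
  have h1 := cond_le D t u
  have h2 := one_le_cond hq (1 / 2 + u * Complex.I)
  have h3 := one_le_cond hq (1 / 2 + t * Complex.I)
  have h4 := Real.log_le_log (by linarith) h1
  rw [Real.log_mul (by linarith) (by positivity), Real.log_pow] at h4
  have h5 : Real.log (1 + |u - t|) ≤ 1 + Real.log T := by
    have h6 : 1 + |u - t| ≤ Real.exp 1 * T := by
      have := Real.add_one_le_exp (1:ℝ)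
      nlinarith
    have h7 := Real.log_le_log (by positivity) h6
    rw [Real.log_mul (Real.exp_pos 1).ne' (by linarith), Real.log_exp] at h7
    exact h7
  have h6 : (m : ℝ) * Real.log (1 + |u - t|) ≤ m * (1 + Real.log T) :=
    mul_le_mul_of_nonneg_left h5 (Nat.cast_nonneg m)
  linarith

end

open Filter Topology in
/-- the size of the parameters -/
lemma size_eventually (m : ℕ) {k : ℝ} (hk : 0 ≤ k) : ∀ᶠ L : ℝ in atTop,
    L ^ (1 / 5 : ℝ) * (m * (1 + (1 + L ^ (1 / 5 : ℝ)))) ≤ L ∧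
    L ^ (1 / 5 : ℝ) + 3 ≤ L ^ (1 / 4 : ℝ) / 4 ∧
    1 + k * (1 + L ^ (1 / 5 : ℝ)) ≤ L ^ (1 / 4 : ℝ) / 4 := by
  have t0 : Tendsto (fun L : ℝ => L ^ (1 / 20 : ℝ)) atTop atTop := tendsto_rpow_atTop (by norm_num)
  filter_upwards [eventually_ge_atTop 1, t0.eventually_ge_atTop (16 + 3 * m + 12 * k)] with L h1 h2
  have hL0 : 0 < L := by linarith
  set v : ℝ := L ^ (1 / 20 : ℝ) with hv
  have hv4 : L ^ (1 / 5 : ℝ) = v ^ 4 := by
    rw [hv, ← Real.rpow_natCast, ← Real.rpow_mul hL0.le]; norm_num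
  have hv5 : L ^ (1 / 4 : ℝ) = v ^ 5 := by
    rw [hv, ← Real.rpow_natCast, ← Real.rpow_mul hL0.le]; norm_num
  have hv20 : L = v ^ 20 := by
    rw [hv, ← Real.rpow_natCast, ← Real.rpow_mul hL0.le]; norm_num
  have hm0 : (0:ℝ) ≤ m := Nat.cast_nonneg m
  have hv16 : 16 ≤ v := by linarith
  have hv1 : 1 ≤ v := by linarith
  have hv0 : 0 < v := by linarith
  have hv4' : 1 ≤ v ^ 4 := one_le_pow₀ hv1
  refine ⟨?_, ?_, ?_⟩
  · rw [hv4]
    have e1 : (m:ℝ) * (1 + (1 + v ^ 4)) ≤ v * (3 * v ^ 4) / 3 := by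
      have : (m:ℝ) * (1 + (1 + v ^ 4)) ≤ m * (3 * v ^ 4) := by
        refine mul_le_mul_of_nonneg_left (by linarith) hm0
      have h3 : (m:ℝ) * (3 * v ^ 4) ≤ v / 3 * (3 * v ^ 4) := by
        refine mul_le_mul_of_nonneg_right (by linarith) (by positivity)
      linarith
    calc v ^ 4 * (m * (1 + (1 + v ^ 4))) ≤ v ^ 4 * (v * (3 * v ^ 4) / 3) :=
          mul_le_mul_of_nonneg_left e1 (by positivity)
      _ = v ^ 9 := by ring
      _ ≤ v ^ 20 := pow_le_pow_right₀ hv1 (by norm_num)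
      _ = L := hv20.symm
  · rw [hv4, hv5]
    nlinarith
  · rw [hv4, hv5]
    have e1 : k * (1 + v ^ 4) ≤ k * (2 * v ^ 4) := mul_le_mul_of_nonneg_left (by linarith) hk
    have e2 : k * (2 * v ^ 4) ≤ v / 12 * (2 * v ^ 4) :=
      mul_le_mul_of_nonneg_right (by linarith) (by positivity)
    nlinarith

/-- **Zero density in windows.** For every degree `m`, every `θ < 1/2` and every `A` there are `B`
and `Q₁` such that for every standard L-function of degree `m` with parameters `θ` and `A`, every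
real `t` for which the analytic conductor `Q = Q(1/2 + i t)` is at least `Q₁`, every `T` with
`2 ≤ T` and `log T ≤ (log Q)^{1/5}`, and every `σ` with `(1 - σ) log Q ≤ (log Q)^{1/5}`: every
finite set of zeros `ρ` with `Re ρ ≥ σ` and `t ≤ Im ρ ≤ t + T` has total multiplicity at most
`B · Q^{1 - σ} · ((1 + (1 - σ) log Q) · log log Q)²`. -/
theorem result (m : ℕ) (θ A : ℝ) (hθ : θ < 1 / 2) :
    ∃ B Q₁ : ℝ, ∀ D : StdL m, D.IsStandard θ A → ∀ t T σ : ℝ,
      Q₁ ≤ D.cond (1 / 2 + t * Complex.I) → 2 ≤ T →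
      Real.log T ≤ Real.log (D.cond (1 / 2 + t * Complex.I)) ^ (1 / 5 : ℝ) →
      (1 - σ) * Real.log (D.cond (1 / 2 + t * Complex.I)) ≤
        Real.log (D.cond (1 / 2 + t * Complex.I)) ^ (1 / 5 : ℝ) →
      ∀ S : Finset ℂ, (∀ ρ ∈ S, D.L ρ = 0 ∧ σ ≤ ρ.re ∧ t ≤ ρ.im ∧ ρ.im ≤ t + T) →
        ∑ ρ ∈ S, (analyticOrderNatAt D.L ρ : ℝ) ≤
          B * (D.cond (1 / 2 + t * Complex.I) ^ (1 - σ) *
            ((1 + (1 - σ) * Real.log (D.cond (1 / 2 + t * Complex.I))) *
              Real.log (Real.log (D.cond (1 / 2 + t * Complex.I)))) ^ 2) := by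
  set δ : ℝ := (1 / 2 - θ) / 8 with hδdef
  have hδ : 0 < δ := by linarith
  have hδθ : θ + 8 * δ ≤ 1 / 2 := by rw [hδdef]; linarith
  set k : ℝ := 1 + 1 / (8 * δ) with hk
  have hk0 : 0 ≤ k := by positivity
  have hm0 : (0:ℝ) ≤ m := Nat.cast_nonneg m
  obtain ⟨l0, hl0⟩ := Filter.eventually_atTop.1
    ((bigZ_eventually (d := m) (δ := δ)).and (size_eventually m hk0))
  set K : ℝ := Kx m (24 ^ m) A * (1 + 8 * Real.exp 1 * C4 * |A|) with hK
  have hlm : 0 ≤ Real.log (1 + 3 * m) := Real.log_nonneg (by linarith)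
  have hC4 := C4_nonneg
  have hKx : 0 ≤ Kx m (24 ^ m) A := by
    unfold Kx
    have := Cw_ge
    positivity
  have hK0 : 0 ≤ K := by rw [hK]; positivity
  refine ⟨K * Real.exp 1 * (3 * (1 + Real.log (1 + 3 * m))) ^ 2,
    Real.exp (max l0 (Real.exp 1)), fun D H t T σ hQ1 hT hTQ hσQ S hS => ?_⟩
  have H' := old_isStandard H
  have hT0 : 0 < T := by linarith
  set Q : ℝ := D.cond (1 / 2 + t * Complex.I) with hQdef
  have hQge : 1 ≤ Q := one_le_cond H.q_pos _
  have hQ0 : 0 < Q := by linarith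
  set L : ℝ := Real.log Q with hL
  have hLge : max l0 (Real.exp 1) ≤ L := by
    rw [hL, Real.le_log_iff_exp_le hQ0]; exact hQ1
  have hLl0 : l0 ≤ L := (le_max_left _ _).trans hLge
  have hLe : Real.exp 1 ≤ L := (le_max_right _ _).trans hLge
  have hexp1 := Real.add_one_le_exp (1:ℝ)
  have hL2 : 2 ≤ L := by linarith
  have hL0 : 0 < L := by linarith
  have hLL : 1 ≤ Real.log L := by rw [Real.le_log_iff_exp_le hL0]; exact hLe
  have hlT : 0 < Real.log T := Real.log_pos (by linarith)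
  have hRHS : 0 ≤ Q ^ (1 - σ) := Real.rpow_nonneg hQ0.le _
  rcases le_or_gt σ 1 with hσ1 | hσ1
  swap
  · have hSe : S = ∅ := by
      rw [Finset.eq_empty_iff_forall_notMem]
      intro ρ hρ
      obtain ⟨a1, a2, -⟩ := hS ρ hρ
      have h1 := (MP_cf4097_nt.WeakSubconvexity.hyp_of hθ H' 0)
      have h2 := Pool.Agent.R402.Zed.F_ne h1 (s := ρ) (by linarith)
      apply h2
      show D.L (ρ + ((0:ℝ) : ℂ) * Complex.I) = 0
      simpa using a1
    rw [hSe, Finset.sum_empty]
    positivity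
  set R : ℝ := 2 * T with hR
  have hlR : Real.log R ≤ 1 + Real.log T := by
    rw [hR, Real.log_mul (by norm_num) hT0.ne']
    have := Real.log_two_lt_d9
    linarith
  set l : ℝ := L + m * (1 + Real.log R) with hl
  have hlR0 : 0 ≤ Real.log R := Real.log_nonneg (by rw [hR]; linarith)
  have hLl : L ≤ l := by
    have : 0 ≤ (m:ℝ) * (1 + Real.log R) := by positivity
    linarith
  have hlp : 0 < l := by linarith
  obtain ⟨hbig, -⟩ := hl0 l (hLl0.trans hLl)
  obtain ⟨-, hz1, hz2, hz3⟩ := hl0 L hLl0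
  have hLl4 : L ^ (1 / 4 : ℝ) ≤ l ^ (1 / 4 : ℝ) := Real.rpow_le_rpow hL0.le hLl (by norm_num)
  set y : ℝ := (1 - σ) * l with hy
  have hσ0 : 0 ≤ 1 - σ := by linarith
  have hy0 : 0 ≤ y := mul_nonneg hσ0 hlp.le
  -- the shift of the exponent
  have hshift : (1 - σ) * (m * (1 + Real.log R)) ≤ 1 := by
    have e1 : (m:ℝ) * (1 + Real.log R) ≤ m * (1 + (1 + L ^ (1 / 5 : ℝ))) := by
      gcongr; linarith
    have e2 : (1 - σ) * L * (m * (1 + Real.log R)) ≤
        L ^ (1 / 5 : ℝ) * (m * (1 + (1 + L ^ (1 / 5 : ℝ)))) := by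
      apply mul_le_mul hσQ e1 (by positivity) (by positivity)
    have e3 : (1 - σ) * (m * (1 + Real.log R)) * L ≤ 1 * L := by
      calc (1 - σ) * (m * (1 + Real.log R)) * L = (1 - σ) * L * (m * (1 + Real.log R)) := by ring
        _ ≤ 1 * L := by linarith
    exact le_of_mul_le_mul_right e3 hL0
  have hyL : y ≤ (1 - σ) * L + 1 := by
    have : y = (1 - σ) * L + (1 - σ) * (m * (1 + Real.log R)) := by rw [hy, hl]; ring
    linarith
  have hy2 : y + 2 ≤ l ^ (1 / 4 : ℝ) / 4 := by linarith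
  have hTl : 1 + (1 + 1 / (8 * δ)) * Real.log R ≤ l ^ (1 / 4 : ℝ) / 4 := by
    have e1 : k * Real.log R ≤ k * (1 + L ^ (1 / 5 : ℝ)) :=
      mul_le_mul_of_nonneg_left (by linarith) hk0
    rw [← hk]
    linarith
  have hwin := zero_win (c := cf D.old.α) (L := D.L)
    (Qf := fun τ => D.cond (1 / 2 + τ * Complex.I)) (d := m) (Cn := 24 ^ m)
    (Nat.cast_nonneg m) (one_le_pow₀ (by norm_num)) hδ hδθ
    (fun τ => MP_cf4097_nt.WeakSubconvexity.hyp_of hθ H' τ) hbig hy0 hy2 hT hR hTl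
    (t := t) (fun τ hτ => log_cond_le H.q_pos (by rw [hR]; linarith) hτ) S (fun ρ hρ => by
      obtain ⟨a1, a2, a3, a4⟩ := hS ρ hρ
      refine ⟨a1, ?_, a3, a4⟩
      have : y / l = 1 - σ := by rw [hy]; field_simp
      rw [this]
      linarith)
  refine hwin.trans ?_
  rw [← hK]
  -- the sizes
  have hey : Real.exp y ≤ Real.exp 1 * Q ^ (1 - σ) := by
    rw [Real.rpow_def_of_pos hQ0, ← Real.exp_add]
    apply Real.exp_le_exp.2
    linarith
  have hRL : Real.log R ≤ 1 + L := by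
    have e1 : L ^ (1 / 5 : ℝ) ≤ L := by
      calc L ^ (1 / 5 : ℝ) ≤ L ^ (1 : ℝ) :=
            Real.rpow_le_rpow_of_exponent_le (by linarith) (by norm_num)
        _ = L := Real.rpow_one L
    linarith
  have hlL : l ≤ (1 + 3 * m) * L := by
    have e1 : (m:ℝ) * (1 + Real.log R) ≤ m * (2 * L + 0) + m * 1 := by nlinarith
    have e2 : (m:ℝ) * 1 ≤ m * L := mul_le_mul_of_nonneg_left (by linarith) hm0
    rw [hl]
    linarith
  have hlog : Real.log l ≤ (1 + Real.log (1 + 3 * m)) * Real.log L := by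
    have h1 := Real.log_le_log hlp hlL
    rw [Real.log_mul (by linarith) hL0.ne'] at h1
    nlinarith
  have hlogl0 : 0 ≤ Real.log l := Real.log_nonneg (by linarith)
  have hprod : ((y + 2) * Real.log l) ^ 2 ≤
      (3 * (1 + Real.log (1 + 3 * m))) ^ 2 * ((1 + (1 - σ) * L) * Real.log L) ^ 2 := by
    rw [← mul_pow]
    refine pow_le_pow_left₀ (by positivity) ?_ 2
    have e0 : 0 ≤ (1 - σ) * L := by positivity
    have e1 : y + 2 ≤ 3 * (1 + (1 - σ) * L) := by linarith
    calc (y + 2) * Real.log l ≤ (3 * (1 + (1 - σ) * L)) *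
          ((1 + Real.log (1 + 3 * m)) * Real.log L) := by
          apply mul_le_mul e1 hlog hlogl0 (by positivity)
      _ = _ := by ring
  calc K * (Real.exp y * ((y + 2) * Real.log l) ^ 2) ≤
      K * ((Real.exp 1 * Q ^ (1 - σ)) * ((3 * (1 + Real.log (1 + 3 * m))) ^ 2 *
        ((1 + (1 - σ) * L) * Real.log L) ^ 2)) := by
        refine mul_le_mul_of_nonneg_left ?_ hK0
        exact mul_le_mul hey hprod (by positivity) (by positivity)
    _ = _ := by ring

end Pool.Agent.Results.MP_52e316_nt.WindowZeroDensity
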